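import Mathlib
import Pool.Agent.N399.TB.Adh
import Pool.Agent.N399.TB.Cyc

set_option autoImplicit false

/-!
# Covering Petersen-minor-free graphs which are built by 4-sums from small graphs (MP_e6539c_co)

Let `G` be a finite multigraph without isthmuses and without a Petersen graph minor which has a tree
decomposition such that for every bag `B` the intersections with the neighbouring bags are contained
in sets `Z 1, ..., Z s` of at most four vertices, where `|B| + ∑ max (|Z i| - 2, 0) ≤ 17`.  Then the
edge set of `G` is the union of two cycles.  The number of vertices, the degrees and the number of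
neighbouring bags are arbitrary.

Special cases: treewidth at most four (bags of five vertices, all sets of four vertices of a bag);
branchwidth at most four (bags of six vertices, three adhesion sets of order four);
tree-partition-width at most four (bags of eight vertices, two adhesion sets; the treewidth may be
seven); path decompositions of adhesion four with bags of at most `13` vertices; all graphs which
are obtained from graphs with at most `17` vertices by clique sums of order two, or with at most
`17 - s` vertices by clique sums of order three at `s` triples.

Proof.  Let `G` be a graph without nowhere-zero 4-flow, bridgeless, without Petersen minor, minimal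
for deletion and contraction.  `G` is internally 5-connected (`N399/TB/Sep4`): of the two sides of a
separation of order `k ≤ 4` one has at most `k - 2` vertices.  Direct the edges of the tree to the
other side.  At a sink `B` the sides which are attached to `Z i` together have at most `|Z i| - 2`
vertices, and so `G` has at most 17 vertices.  But `G` has at least 18 vertices of odd degree, by
`TH362.TF.main16` of the starting library.
-/

namespace Pool.Agent.Results.MP_e6539c_co.AdhesionFour

variable {V E : Type}

/-- The vertices `x` and `y` are joined by an edge different from `e`. -/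
def AdjWithout (src dst : E → V) (e : E) (x y : V) : Prop :=
  ∃ e', e' ≠ e ∧ ((src e' = x ∧ dst e' = y) ∨ (src e' = y ∧ dst e' = x))

/-- The edge `e` is an isthmus: its ends are not joined by a walk that avoids `e`. -/
def IsIsthmus (src dst : E → V) (e : E) : Prop :=
  ¬ Relation.ReflTransGen (AdjWithout src dst e) (src e) (dst e)

/-- `C` is a cycle (a disjoint union of circuits): every vertex has even degree in `(V, C)`; a loop
counts twice. -/
def IsCycle [DecidableEq V] (src dst : E → V) (C : Finset E) : Prop :=
  ∀ v : V, Even ((C.filter (fun e => src e = v)).card + (C.filter (fun e => dst e = v)).card)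

/-- The vertices of the Petersen graph: the `2`-element subsets of a `5`-element set; two of them
are adjacent if they are disjoint. -/
def PetVertex : Type := {s : Finset (Fin 5) // s.card = 2}

/-- The vertices `x` and `y` lie in `B` and are joined by an edge. -/
def AdjIn (src dst : E → V) (B : Set V) (x y : V) : Prop :=
  x ∈ B ∧ y ∈ B ∧ ∃ e, (src e = x ∧ dst e = y) ∨ (src e = y ∧ dst e = x)

/-- The multigraph has a Petersen graph minor: there are nonempty disjoint vertex sets `B s`, one
for each vertex `s` of the Petersen graph, such that any two vertices of `B s` are joined by a walk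
in `B s`, and such that an edge joins `B s` and `B t` if `s` and `t` are adjacent. -/
def HasPetersenMinor (src dst : E → V) : Prop :=
  ∃ B : PetVertex → Set V, (∀ s, (B s).Nonempty) ∧
    (∀ s t, s ≠ t → Disjoint (B s) (B t)) ∧
    (∀ s, ∀ x ∈ B s, ∀ y ∈ B s, Relation.ReflTransGen (AdjIn src dst (B s)) x y) ∧
    ∀ s t : PetVertex, Disjoint s.1 t.1 →
      ∃ e, (src e ∈ B s ∧ dst e ∈ B t) ∨ (src e ∈ B t ∧ dst e ∈ B s)

/-- A tree decomposition of the graph, with bags `bag i` for the nodes `i` of the tree `T`. -/
def IsTreeDecomposition {ι : Type} (src dst : E → V) (T : SimpleGraph ι)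
    (bag : ι → Finset V) : Prop :=
  T.IsTree ∧ (∀ v, ∃ i, v ∈ bag i) ∧ (∀ e, ∃ i, src e ∈ bag i ∧ dst e ∈ bag i) ∧
    ∀ (i j : ι) (p : T.Walk i j), p.IsPath → ∀ k ∈ p.support, ∀ v, v ∈ bag i → v ∈ bag j →
      v ∈ bag k

/-- The bag of the node `b` is small: the intersections with the bags of the neighbouring nodes are
contained in sets `Z 0, ..., Z (s - 1)` of at most four vertices, and
`|bag b| + ∑ max (|Z i| - 2, 0) ≤ 17` (truncated subtraction). -/
def SmallBag [DecidableEq V] {ι : Type} (T : SimpleGraph ι) (bag : ι → Finset V) (b : ι) : Prop :=
  ∃ (s : ℕ) (Z : Fin s → Finset V), (∀ i, (Z i).card ≤ 4) ∧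
    (∀ w, T.Adj b w → ∃ i, bag b ∩ bag w ⊆ Z i) ∧ (bag b).card + ∑ i, ((Z i).card - 2) ≤ 17

/-- Every finite multigraph without isthmuses and without a Petersen minor which has a tree
decomposition with small bags is the union of two cycles. -/
theorem result :
    ∀ (V E ι : Type) [Fintype V] [DecidableEq V] [Fintype E] [DecidableEq E] [Fintype ι]
      (src dst : E → V) (T : SimpleGraph ι) (bag : ι → Finset V),
      IsTreeDecomposition src dst T bag → (∀ b, SmallBag T bag b) →
      (∀ e, ¬ IsIsthmus src dst e) → ¬ HasPetersenMinor src dst →
      ∃ C₁ C₂ : Finset E, IsCycle src dst C₁ ∧ IsCycle src dst C₂ ∧ C₁ ∪ C₂ = Finset.univ := by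
  intro V E ι _ _ _ _ _ src dst T bag hT hb hiso hp
  exact N399.TB.two_cycles (fun h1 h2 => N399.TB.ad4
    (N399.TB.hasAD_of_tree hT.1 bag hT.2.2.1 hT.2.2.2 hb) h1 h2) hiso hp

end Pool.Agent.Results.MP_e6539c_co.AdhesionFour
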