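import Pool.Agent.TH362.TF.Multi
import Pool.Agent.TH362.TF.Contr
import Pool.Agent.TH362.TF.Cyc
import Pool.Agent.N393.C13.All

/-!
# Graphs without circuits with more than thirteen vertices (MP_e6539c_co)

Let `G` be a finite multigraph without isthmuses which has no circuit with more than thirteen
vertices.  Then the edge set of `G` is the union of two cycles, or a component of `G` can be
contracted to the Petersen graph.  In particular the edge set is the union of two cycles if there is
no Petersen minor.  The order, the degrees and the connectivity of `G` are arbitrary.

Proof.  Let `H` be obtained from `G` by contraction of disjoint connected vertex sets, without
nowhere-zero flow over the group of order four and without Petersen quotient, and with as few edges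
(apart from loops) as possible.  By the starting library, `H` has no circuits with at most four
edges, all vertices with neighbours have at least three of them, and `H` has at least 18 vertices of
odd degree.

(1) `H` has no circuits with more than thirteen vertices: a circuit of `H` gives a circuit of `G`
which passes through the contracted sets (`Lft`).

(2) `H` is connected apart from isolated vertices, and it has no cut vertices: otherwise it is the
union of two parts which can be contracted separately, and the flows can be combined (`Con2`).

(3) Let `K` be a longest circuit of `H`.  Then the vertices outside `K` are independent (`Paths`,
`Ends`, `Edge`).  Consider a longest path outside `K`.  If it has at least six vertices, both its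
ends have neighbours on `K`: otherwise all neighbours of an end are on the path, and the exchange of
the path with these neighbours gives, together with the two disjoint connections from the path to
`K`, a circuit which is longer than `K`.  For the same reason the ends of longest paths have two
neighbours on `K`, and then longest paths have at most two vertices.  If `xy` is an edge outside
`K`, then the distances along `K` between the neighbours of `x` and those of `y` are at least three,
and this is used for several longest circuits to obtain a contradiction.

(4) At least five vertices of `H` are outside `K` and have three neighbours on `K` each.  No two of
them have two common neighbours.  This is not possible for five vertices if `K` has at most thirteen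
vertices: the neighbours of one vertex are not consecutive, and the exchange of parts of `K` gives
longer circuits in all the other cases (`Count`, an enumeration).
-/

set_option autoImplicit false

namespace Pool.Agent.Results.MP_e6539c_co.CircumferenceThirteen

open Pool.Agent.TH362.Multi Pool.Agent.N393.C13

/-- The graph has a circuit with `n` vertices: there are `n` different vertices
`v 0, ..., v (n - 1)` such that an edge joins `v i` and `v (i + 1)` for each `i`, where the indices
are read modulo `n`. -/
def HasCircuit {V E : Type} (s t : E → V) (n : ℕ) : Prop :=
  ∃ v : ℕ → V, (∀ i < n, ∀ j < n, v i = v j → i = j) ∧
    ∀ i < n, ∃ e, (s e = v i ∧ t e = v ((i + 1) % n)) ∨ (s e = v ((i + 1) % n) ∧ t e = v i)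

/-- Let `s t : E → V` be a finite multigraph without isthmuses which has no circuit with more than
thirteen vertices. Then the edge set is the union of two cycles, or some component can be contracted
to the Petersen graph.  In particular the edge set is the union of two cycles if there is no Petersen
minor. -/
theorem result (V E : Type) [Finite V] [Finite E] (s t : E → V)
    (hb : ∀ e, ¬ Isthmus s t e)
    (hc : ∀ n, 13 < n → ¬ HasCircuit s t n) :
    (∃ C₁ C₂ : Set E, IsCycle s t C₁ ∧ IsCycle s t C₂ ∧ C₁ ∪ C₂ = Set.univ) ∨
      ContractsToPetersen s t := by
  classical
  have := Fintype.ofFinite V
  have := Fintype.ofFinite E
  have hn := TH362.TF.n1_of s t hb
  rcases flow13 leaves s t hn (NoLong.of fun n h v hv => hc n h ⟨v, hv⟩) with h | h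
  · exact Or.inl (TH362.TF.two_cycles s t h)
  · exact Or.inr (TH362.TF.contracts s t hn h)

end Pool.Agent.Results.MP_e6539c_co.CircumferenceThirteen
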