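import Pool.Agent.TH362.TF.Multi
import Pool.Agent.TH362.TF.Contr
import Pool.Agent.TH362.TF.Cyc
import Pool.Agent.N410.DC.Chain

/-!
# Two cycles, or the Petersen graph: eighteen disjoint odd cuts (MP_e6539c_co)

Let `G` be a finite multigraph without isthmuses in which any 18 pairwise disjoint sets of vertices
with odd boundaries have at least 67 boundary edges in total (by parity: at least 68).  Then the edge
set is the union of two cycles, or a component of `G` can be contracted to the Petersen graph.  In
particular this holds
* if every vertex has at least `k ≥ 16` different neighbours and there are at most `18 k + 17`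
  vertices (dense graphs: simple graphs with `n` vertices, minimum degree at least `16` and at least
  `(n - 17) / 18`);
* if there are no 12 disjoint sets of vertices with exactly three boundary edges each;
* if at most 16 vertices have odd degree.
More generally the condition is only needed for sets without boundary edges in the union `F` of a
chain of circuits or ears with at most four new edges and of doubly connected pieces.

Proof.  After the contraction of `F` let `H` be a quotient without nowhere-zero 4-flow and without
Petersen quotient such that all proper quotients of `H` have a flow.  At least 18 vertices of `H` have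
odd degree (starting library, `TH362/TF`), and no vertex has degree one or two.  A set of `k ≥ 2`
vertices of `H` spans at most `2 k - 3` edges: otherwise a minimal dense set has an orientation in
which exactly two edges leave each vertex apart from a root (Hall), hence two disjoint connectors
(Edmonds' branching theorem), and a flow of the quotient by this set can be lifted.  So the sum of
`4 - d(y)` over the vertices `y` of `H` which are not isolated is at least six, and this gives 18
vertices of odd degree with at most 66 edges; their classes are 18 disjoint sets of `G`.
-/

set_option autoImplicit false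

namespace Pool.Agent.Results.MP_e6539c_co.EighteenOddCuts

open Finset Pool.Agent.TH362.Multi

/-- The edges with exactly one end in `X`. -/
def boundary {V E : Type} [DecidableEq V] [Fintype E] (s t : E → V) (X : Finset V) : Finset E :=
  univ.filter (fun e => ¬ (s e ∈ X ↔ t e ∈ X))

/-- The union of the sets `C j` with `j < i`. -/
def earlier {E : Type} [DecidableEq E] {m : ℕ} (C : Fin m → Finset E) (i : Fin m) : Finset E :=
  (univ.filter (fun j => j < i)).biUnion C

/-- `H` can be added to the chain after `F`: either (short) `H` has at most four edges outside `F`
and no bridge modulo `F`: no set `Y` of vertices without boundary edges in `F` has exactly one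
boundary edge in `H`; or (doubly connected) `H` contains two disjoint sets each of which connects,
modulo `F`, whatever `H` connects: every set `Y` of vertices without boundary edges in `F` and with
a boundary edge in `H` has boundary edges in both sets. -/
def Adds {V E : Type} [DecidableEq V] [Fintype E] [DecidableEq E] (s t : E → V)
    (F H : Finset E) : Prop :=
  ((H \ F).card ≤ 4 ∧ ∀ Y : Finset V, Disjoint (boundary s t Y) F →
    (boundary s t Y ∩ H).card ≠ 1) ∨
  ∃ T₁ T₂ : Finset E, T₁ ⊆ H ∧ T₂ ⊆ H ∧ Disjoint T₁ T₂ ∧ ∀ Y : Finset V,
    Disjoint (boundary s t Y) F → ¬ Disjoint (boundary s t Y) H →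
      ¬ Disjoint (boundary s t Y) T₁ ∧ ¬ Disjoint (boundary s t Y) T₂

/-- Any 18 pairwise disjoint sets of vertices with odd boundaries which contain no edge of `F` have
at least 67 boundary edges in total. -/
def OddCutsLarge {V E : Type} [DecidableEq V] [Fintype E] [DecidableEq E] (s t : E → V)
    (F : Finset E) : Prop :=
  ∀ X : Fin 18 → Finset V, (∀ i j, i ≠ j → Disjoint (X i) (X j)) →
    (∀ i, Disjoint (boundary s t (X i)) F) → (∀ i, Odd (boundary s t (X i)).card) →
    67 ≤ ∑ i, (boundary s t (X i)).card

/-- Every vertex has at least `k` different neighbours. -/
def Neighbours {V E : Type} (s t : E → V) (k : ℕ) : Prop :=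
  ∀ v : V, ∃ W : Finset V, k ≤ W.card ∧
    ∀ w ∈ W, w ≠ v ∧ ∃ e, (s e = v ∧ t e = w) ∨ (s e = w ∧ t e = v)

/-- Let `s t : E → V` be a finite multigraph without isthmuses.

(1) If `C` is a chain of short and doubly connected sets of edges (for instance the empty chain) and
any 18 pairwise disjoint sets of vertices with odd boundaries without edges of the chain have at least
67 boundary edges in total, then the edge set is the union of two cycles, or some component can be
contracted to the Petersen graph.

(2) The same conclusion holds if every vertex has at least `k` different neighbours and the number of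
vertices is at most `18 k + 17` (and `k ≥ 16`), or at most `17 k + 16` (and `k ≥ 10`), or at most
`12 k + 11` (and `k ≥ 4`). -/
theorem result (V E : Type) [Fintype V] [DecidableEq V] [Fintype E] [DecidableEq E] (s t : E → V)
    (hb : ∀ e, ¬ Isthmus s t e) :
    (∀ (m : ℕ) (C : Fin m → Finset E), (∀ i, Adds s t (earlier C i) (C i)) →
      OddCutsLarge s t (univ.biUnion C) →
      (∃ C₁ C₂ : Set E, IsCycle s t C₁ ∧ IsCycle s t C₂ ∧ C₁ ∪ C₂ = Set.univ) ∨
        ContractsToPetersen s t) ∧
    (∀ k : ℕ, Neighbours s t k →
      ((16 ≤ k ∧ Fintype.card V < 18 * (k + 1)) ∨ (10 ≤ k ∧ Fintype.card V < 17 * (k + 1)) ∨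
        (4 ≤ k ∧ Fintype.card V < 12 * (k + 1))) →
      (∃ C₁ C₂ : Set E, IsCycle s t C₁ ∧ IsCycle s t C₂ ∧ C₁ ∪ C₂ = Set.univ) ∨
        ContractsToPetersen s t) := by
  have h1 := TH362.TF.n1_of s t hb
  have main : N410.DC.Cl s t →
      (∃ C₁ C₂ : Set E, IsCycle s t C₁ ∧ IsCycle s t C₂ ∧ C₁ ∪ C₂ = Set.univ) ∨
        ContractsToPetersen s t := by
    intro h
    rcases h.flow h1 with h2 | h2
    · exact Or.inl (TH362.TF.two_cycles s t h2)
    · exact Or.inr (TH362.TF.contracts s t h1 h2)
  refine ⟨fun m C hC hO => main (N410.DC.Cl.of_steps hC hO), fun k hk h => ?_⟩
  exact main (N410.DC.Cl.of_nbrs h1 hk h)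

end Pool.Agent.Results.MP_e6539c_co.EighteenOddCuts
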