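import Pool.Agent.TH362.TF.Multi
import Pool.Agent.TH362.TF.Contr
import Pool.Agent.TH362.TF.Cyc
import Pool.Agent.N410.DC.Part

/-!
# Two cycles, or the Petersen graph: partitions with 18 odd classes (MP_e6539c_co)

Let `G` be a finite multigraph without cut edges such that every partition of the vertex set into
`k` classes, at least 18 of which have an odd number of boundary edges, has at least `2 (k - 1)`
crossing edges. Then the edge set is the union of two cycles, or a component of `G` can be
contracted to the Petersen graph. (The second alternative cannot occur if `G` has no Petersen
minor.)

If all partitions have this property then `G` has two disjoint spanning trees (Tutte, Nash-Williams)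
and a nowhere-zero 4-flow (Jaeger). Here the condition is only needed for partitions with at least
18 odd classes: graphs with at most 16 vertices of odd degree, simple graphs with `n ≥ 21` vertices
and at least `(n - 17 choose 2) + 34` edges, and many others are included. More generally it is only
needed for partitions without crossing edges in the union `F` of a chain of circuits or ears with at
most four new edges and of doubly connected pieces.

Proof. After the contraction of `F` let `H` be a quotient without nowhere-zero 4-flow and without
Petersen quotient such that all proper quotients of `H` have a flow. At least 18 vertices of `H`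
have odd degree (starting library, `TH362/TF`). A set of `k ≥ 2` vertices of `H` spans at most `2 k
- 3` edges (`N410/DC/Sparse.lean`): otherwise a minimal dense set has an orientation in which
exactly two edges leave each vertex apart from a root (Hall), hence two disjoint connectors
(Edmonds' branching theorem), and a flow of the quotient by this set can be lifted. So the classes
of the vertices of `H` form a partition with too few crossing edges.
-/

set_option autoImplicit false

namespace Pool.Agent.Results.MP_e6539c_co.PartitionsEighteen

open Finset Pool.Agent.TH362.Multi

/-- The edges with exactly one end in `X`. -/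
def boundary {V E : Type} [DecidableEq V] [Fintype E] (s t : E → V) (X : Finset V) : Finset E :=
  univ.filter (fun e => ¬ (s e ∈ X ↔ t e ∈ X))

/-- The union of the sets `C j` with `j < i`. -/
def earlier {E : Type} [DecidableEq E] {m : ℕ} (C : Fin m → Finset E) (i : Fin m) : Finset E :=
  (univ.filter (fun j => j < i)).biUnion C

/-- `H` can be added to the chain after `F`: either (short) `H` has at most four edges outside `F`
and no bridge modulo `F`: no set `Y` of vertices without boundary edges in `F` has exactly one
boundary edge in `H`; or (doubly connected) `H` contains two disjoint sets each of which connects,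
modulo `F`, whatever `H` connects: every set `Y` of vertices without boundary edges in `F` and with
a boundary edge in `H` has boundary edges in both sets. -/
def Adds {V E : Type} [DecidableEq V] [Fintype E] [DecidableEq E] (s t : E → V)
    (F H : Finset E) : Prop :=
  ((H \ F).card ≤ 4 ∧ ∀ Y : Finset V, Disjoint (boundary s t Y) F →
    (boundary s t Y ∩ H).card ≠ 1) ∨
  ∃ T₁ T₂ : Finset E, T₁ ⊆ H ∧ T₂ ⊆ H ∧ Disjoint T₁ T₂ ∧ ∀ Y : Finset V,
    Disjoint (boundary s t Y) F → ¬ Disjoint (boundary s t Y) H →
      ¬ Disjoint (boundary s t Y) T₁ ∧ ¬ Disjoint (boundary s t Y) T₂

/-- The `i`-th class of the partition `p`. -/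
def part {V : Type} [Fintype V] {k : ℕ} (p : V → Fin k) (i : Fin k) : Finset V :=
  univ.filter (fun v => p v = i)

/-- For some chain of sets of edges (for instance the empty chain) every partition of the vertex set
into `k` classes without crossing edges in the chain, at least 18 of which have an odd number of
boundary edges, has at least `2 (k - 1)` crossing edges. -/
def ManyCrossing {V E : Type} [Fintype V] [DecidableEq V] [Fintype E] [DecidableEq E]
    (s t : E → V) : Prop :=
  ∃ (m : ℕ) (C : Fin m → Finset E), (∀ i, Adds s t (earlier C i) (C i)) ∧
    ∀ (k : ℕ) (p : V → Fin k), Function.Surjective p →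
      (∀ e ∈ univ.biUnion C, p (s e) = p (t e)) →
      18 ≤ (univ.filter (fun i => Odd (boundary s t (part p i)).card)).card →
      2 * k ≤ (univ.filter (fun e => p (s e) ≠ p (t e))).card + 2

/-- Let `s t : E → V` be a finite multigraph without isthmuses which satisfies the condition above.
Then the edge set is the union of two cycles, or some component can be contracted to the Petersen
graph. -/
theorem result (V E : Type) [Fintype V] [DecidableEq V] [Fintype E] [DecidableEq E] (s t : E → V)
    (hb : ∀ e, ¬ Isthmus s t e) (h : ManyCrossing s t) :
    (∃ C₁ C₂ : Set E, IsCycle s t C₁ ∧ IsCycle s t C₂ ∧ C₁ ∪ C₂ = Set.univ) ∨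
      ContractsToPetersen s t := by
  have h1 := TH362.TF.n1_of s t hb
  obtain ⟨m, C, hC, hO⟩ := h
  rcases (N410.DC.GCl.of_part hC hO).flow N410.DC.inh_part h1 with h2 | h2
  · exact Or.inl (TH362.TF.two_cycles s t h2)
  · exact Or.inr (TH362.TF.contracts s t h1 h2)

end Pool.Agent.Results.MP_e6539c_co.PartitionsEighteen
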